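import Pool.Agent.Lib.MP_640417_ag.Wc.Spec
import Pool.Agent.Lib.MP_640417_ag.Sharp.Family

/-!
# Relations are constant on the cosets of `smallSub`, for almost all sign functions
-/

namespace Pool.Agent.Lib.MP_640417_ag.Wc

open Module Finset MulAction NumberField Pool.Agent.Lib.MP_640417_ag
  Pool.Agent.Lib.MP_640417_ag.Far Pool.Agent.Lib.MP_640417_ag.Full
  Pool.Agent.Lib.MP_640417_ag.Sharp

/-- The rational odd relations. -/
noncomputable def relR {S G : Type} [Fintype S] [Group G] [MulAction G S] (z : G) (e : S → ℤ) :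
    Submodule ℚ (S → ℚ) where
  carrier := {v | (∀ s, v (z • s) = - v s) ∧ ∀ γ : G, ∑ s, v s * (e (γ • s) : ℚ) = 0}
  add_mem' := by
    rintro a b ⟨ha, ha'⟩ ⟨hb, hb'⟩
    refine ⟨fun s => ?_, fun γ => ?_⟩
    · simp only [Pi.add_apply, ha s, hb s]; ring
    · simp only [Pi.add_apply, add_mul, Finset.sum_add_distrib, ha' γ, hb' γ, add_zero]
  zero_mem' := ⟨fun s => by simp, fun γ => by simp⟩
  smul_mem' := by
    rintro c a ⟨ha, ha'⟩
    refine ⟨fun s => ?_, fun γ => ?_⟩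
    · simp only [Pi.smul_apply, ha s, smul_eq_mul]; ring
    · simp only [Pi.smul_apply, smul_eq_mul, mul_assoc, ← Finset.mul_sum, ha' γ, mul_zero]

/-- The functions which are constant on the cosets of a subgroup. -/
def cosetC {S G : Type} [Group G] [MulAction G S] (s₀ : S) (K : Subgroup G) :
    Submodule ℚ (S → ℚ) where
  carrier := {v | ∀ γ γ' : G, γ⁻¹ * γ' ∈ K → v (γ • s₀) = v (γ' • s₀)}
  add_mem' := by
    intro a b ha hb γ γ' h
    simp only [Pi.add_apply, ha γ γ' h, hb γ γ' h]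
  zero_mem' := fun _ _ _ => rfl
  smul_mem' := by
    intro c a ha γ γ' h
    simp only [Pi.smul_apply, ha γ γ' h]

lemma relR_stab {S G : Type} [Fintype S] [Group G] [MulAction G S] (z : G)
    (hz : ∀ γ : G, γ * z = z * γ) (e : S → ℤ) : IsStab G (relR z e) := by
  rintro v ⟨h1, h2⟩ δ
  refine ⟨fun s => ?_, fun γ => ?_⟩
  · change v (δ • z • s) = - v (δ • s)
    rw [← mul_smul, hz, mul_smul, h1]
  · rw [← h2 (γ * δ⁻¹)]
    apply Fintype.sum_bijective (fun s => δ • s) (MulAction.bijective δ)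
    intro s
    rw [← mul_smul, mul_assoc, inv_mul_cancel, mul_one]

lemma cosetC_stab {S G : Type} [Group G] [MulAction G S] (s₀ : S) (K : Subgroup G) :
    IsStab G (cosetC s₀ K) := by
  intro v hv δ γ γ' h
  change v (δ • γ • s₀) = v (δ • γ' • s₀)
  rw [← mul_smul, ← mul_smul]
  apply hv
  rw [mul_inv_rev, mul_assoc, ← mul_assoc δ⁻¹, inv_mul_cancel, one_mul]
  exact h

/-- The group theoretic form. -/
theorem groups (hMult : StMult) (hMod : StMod) (hBig : StBig) (hTwo : StTwo)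
    (hSplit : StSplit) (hSum : StSum) (hIn : StIrrIn) (hSmall : StSmallIn) : ∃ C : ℝ, 0 < C ∧
    ∀ (S G : Type) [Fintype S] [Group G] [Finite G] [MulAction G S] [IsPretransitive G S]
      (s₀ : S) (z : G) (_ : ∀ γ : G, γ * z = z * γ) (_ : ∀ s : S, z • z • s = s)
      (_ : ∀ s : S, z • s ≠ s) (g : ℕ) (_ : Fintype.card S = 2 * g) (_ : 2 ≤ g),
      ({e : S → ℤ | IsSgn z e ∧ ∃ v ∈ oddRel z e, ∃ γ γ' : G, γ⁻¹ * γ' ∈ smallSub s₀ z ∧
        v (γ • s₀) ≠ v (γ' • s₀)}.ncard : ℝ) ≤ C * Real.log g ^ (-(1 / 4) : ℝ) * 2 ^ g := by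
  obtain ⟨C, hC, hfam⟩ := family_bound hMult hMod hBig hTwo hSplit hSum
  refine ⟨C, hC, ?_⟩
  intro S G _ _ _ _ _ s₀ z hz hzz hzne g hcard hg2
  classical
  obtain ⟨n, U, hU, hiso, hUex⟩ := exists_types S G s₀ z
  let ι : Type := {i : Fin n // 3 ≤ finrank ℚ (U i)}
  let n₁ : ℕ := Fintype.card ι
  let en : Fin n₁ ≃ ι := (Fintype.equivFin ι).symm
  let U₁ : Fin n₁ → Submodule ℚ (S → ℚ) := fun j => U (en j).1
  have hU₁ : ∀ j, IsIrr G (U₁ j) ∧ IsOddSp z (U₁ j) := fun j => hU _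
  have hiso₁ : ∀ i j, i ≠ j → ¬ IsoF G (U₁ i) (U₁ j) := by
    intro i j hij
    apply hiso
    intro h
    exact hij (en.injective (Subtype.ext h))
  have h3 : ∀ j, 3 ≤ finrank ℚ (U₁ j) := fun j => (en j).2
  have h4 := hfam S G s₀ z hz hzz hzne g hcard hg2 n₁ U₁ hU₁ hiso₁
  have hn1 : {j : Fin n₁ | finrank ℚ (U₁ j) = 1}.ncard = 0 := by
    have h5 : {j : Fin n₁ | finrank ℚ (U₁ j) = 1} = ∅ := by
      ext j
      simp only [Set.mem_ofPred_eq, Set.mem_empty_iff_false, iff_false]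
      have := h3 j
      omega
    rw [h5]
    simp
  have hn2 : {j : Fin n₁ | finrank ℚ (U₁ j) = 2 ∧ finrank ℚ (endF G (U₁ j)) =
      finrank ℚ ↥(U₁ j ⊓ invF ℚ (stabilizer G s₀))}.ncard = 0 := by
    have h5 : {j : Fin n₁ | finrank ℚ (U₁ j) = 2 ∧ finrank ℚ (endF G (U₁ j)) =
        finrank ℚ ↥(U₁ j ⊓ invF ℚ (stabilizer G s₀))} = ∅ := by
      ext j
      simp only [Set.mem_ofPred_eq, Set.mem_empty_iff_false, iff_false]
      rintro ⟨h6, -⟩
      have := h3 j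
      omega
    rw [h5]
    simp
  have hn3 : {j : Fin n₁ | finrank ℚ (U₁ j) = 2 ∧ finrank ℚ (endF G (U₁ j)) = 1 ∧
      finrank ℚ ↥(U₁ j ⊓ invF ℚ (stabilizer G s₀)) = 2}.ncard = 0 := by
    have h5 : {j : Fin n₁ | finrank ℚ (U₁ j) = 2 ∧ finrank ℚ (endF G (U₁ j)) = 1 ∧
        finrank ℚ ↥(U₁ j ⊓ invF ℚ (stabilizer G s₀)) = 2} = ∅ := by
      ext j
      simp only [Set.mem_ofPred_eq, Set.mem_empty_iff_false, iff_false]
      rintro ⟨h6, -⟩
      have := h3 j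
      omega
    rw [h5]
    simp
  rw [hn1, hn2, hn3] at h4
  simp only [Nat.cast_zero, zero_div, zero_mul, zero_add] at h4
  refine le_trans ?_ h4
  have hfin : ∀ j, (badSet z (U₁ j)).Finite := fun j => finite_isSgn z _
  have hcover : {e : S → ℤ | IsSgn z e ∧ ∃ v ∈ oddRel z e, ∃ γ γ' : G,
      γ⁻¹ * γ' ∈ smallSub s₀ z ∧ v (γ • s₀) ≠ v (γ' • s₀)} ⊆
      ⋃ j ∈ (Finset.univ : Finset (Fin n₁)), badSet z (U₁ j) := by
    rintro e ⟨he, v, hv, γ, γ', hγ, hne⟩
    have hRC : ¬ relR z e ≤ cosetC s₀ (smallSub s₀ z) := by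
      intro h
      have hvR : (fun s => (v s : ℚ)) ∈ relR z e := by
        refine ⟨fun s => ?_, fun δ => ?_⟩
        · change ((v (z • s) : ℤ) : ℚ) = - ((v s : ℤ) : ℚ)
          rw [hv.1 s]
          push_cast
          rfl
        · change ∑ s, ((v s : ℤ) : ℚ) * ((e (δ • s) : ℤ) : ℚ) = 0
          have := hv.2 δ
          exact_mod_cast this
      have h1 := h hvR γ γ' hγ
      apply hne
      exact_mod_cast h1
    obtain ⟨U', hU'1, hU'2, hU'3⟩ := hIn S G (relR z e) (cosetC s₀ (smallSub s₀ z))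
      (relR_stab z hz e) (cosetC_stab s₀ _) hRC
    have hodd : IsOddSp z U' := fun f hf s => (hU'2 hf).1 s
    have hdim : 3 ≤ finrank ℚ U' := by
      by_contra hlt
      apply hU'3
      intro u hu γ γ' h
      exact hSmall S G s₀ z hz hzz hzne U' hU'1 hodd (by omega) u hu γ γ' h
    obtain ⟨i, hi⟩ := hUex U' hU'1 hodd
    have hdim' : finrank ℚ (U i) = finrank ℚ U' := by
      obtain ⟨θ, -⟩ := hi
      exact θ.finrank_eq
    let j : Fin n₁ := en.symm ⟨i, by rw [hdim']; exact hdim⟩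
    have hj : U₁ j = U i := by
      simp only [U₁, j, Equiv.apply_symm_apply]
    simp only [Finset.mem_univ, Set.iUnion_true, Set.mem_iUnion]
    refine ⟨j, he, U', hU'1.2.1, ?_, ?_⟩
    · rw [hj]
      exact hi
    · intro f hf
      have := (hU'2 hf).2 1
      simpa using this
  have h5 : {e : S → ℤ | IsSgn z e ∧ ∃ v ∈ oddRel z e, ∃ γ γ' : G,
      γ⁻¹ * γ' ∈ smallSub s₀ z ∧ v (γ • s₀) ≠ v (γ' • s₀)}.ncard ≤
      ∑ j, (badSet z (U₁ j)).ncard :=
    (Set.ncard_le_ncard hcover (Set.Finite.biUnion (Set.toFinite _) (fun j _ => hfin j))).trans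
      (Finset.set_ncard_biUnion_le _ _)
  exact_mod_cast h5

end Pool.Agent.Lib.MP_640417_ag.Wc
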