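import Pool.Agent.Lib.MP_640417_ag.Wc.Spec
import Pool.Agent.Lib.MP_640417_ag.Frob.IrrB

/-!
# An irreducible subspace outside a given stable space
-/

namespace Pool.Agent.Lib.MP_640417_ag.Wc

open Module Finset MulAction NumberField Pool.Agent.Lib.MP_640417_ag
  Pool.Agent.Lib.MP_640417_ag.Far Pool.Agent.Lib.MP_640417_ag.Full
  Pool.Agent.Lib.MP_640417_ag.Sharp

private theorem irrIn_stab_inf {S G : Type} [Group G] [MulAction G S]
    {R C : Submodule ℚ (S → ℚ)} (hR : IsStab G R) (hC : IsStab G C) : IsStab G (R ⊓ C) :=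
  fun f hf γ => ⟨hR f hf.1 γ, hC f hf.2 γ⟩

private theorem irrIn_stab_perp {S G : Type} [Fintype S] [Group G] [MulAction G S]
    {R : Submodule ℚ (S → ℚ)} (hR : IsStab G R) : IsStab G (Frob.perp R) := by
  intro f hf γ
  rw [Frob.mem_perp] at hf ⊢
  intro x hx
  have h1 := hf _ (hR x hx γ⁻¹)
  rw [← h1]
  refine Fintype.sum_equiv (MulAction.toPerm γ) _ _ fun s => ?_
  show x s * f (γ • s) = x (γ⁻¹ • (γ • s)) * f (γ • s)
  rw [inv_smul_smul]

theorem pIrrIn : StIrrIn := by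
  classical
  intro S G _ _ _ R C hR hC hRC
  set R₁ : Submodule ℚ (S → ℚ) := R ⊓ C with hR₁
  set R₂ : Submodule ℚ (S → ℚ) := R ⊓ Frob.perp R₁ with hR₂
  have hs₁ : IsStab G R₁ := irrIn_stab_inf hR hC
  have hs₂ : IsStab G R₂ := irrIn_stab_inf hR (irrIn_stab_perp hs₁)
  have hne : R₂ ≠ ⊥ := by
    obtain ⟨f, hf, hfC⟩ := SetLike.not_le_iff_exists.mp hRC
    obtain ⟨r, hr, d, hd, hrd⟩ := Frob.exists_decomp R₁ f
    intro hbot
    have hdR : d ∈ R := by
      have : d = f - r := by rw [← hrd]; abel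
      rw [this]
      exact R.sub_mem hf hr.1
    have hd2 : d ∈ R₂ := ⟨hdR, hd⟩
    rw [hbot, Submodule.mem_bot] at hd2
    rw [hd2, add_zero] at hrd
    apply hfC
    rw [← hrd]
    exact hr.2
  have hex : ∃ n : ℕ, ∃ U : Submodule ℚ (S → ℚ), U ≤ R₂ ∧ IsStab G U ∧ U ≠ ⊥ ∧ finrank ℚ U = n :=
    ⟨_, R₂, le_rfl, hs₂, hne, rfl⟩
  obtain ⟨U, hU1, hU2, hU3, hU4⟩ := Nat.find_spec hex
  refine ⟨U, ⟨hU3, hU2, fun U' hU' hst => ?_⟩, hU1.trans inf_le_left, fun hUC => ?_⟩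
  · by_cases hb : U' = ⊥
    · exact Or.inl hb
    · right
      have hmin : finrank ℚ U ≤ finrank ℚ U' := by
        rw [hU4]
        exact Nat.find_min' hex ⟨U', hU'.trans hU1, hst, hb, rfl⟩
      exact Submodule.eq_of_le_of_finrank_le hU' hmin
  · apply hU3
    rw [eq_bot_iff]
    intro f hf
    have h1 : f ∈ R₁ := ⟨(hU1 hf).1, hUC hf⟩
    have h2 : f ∈ Frob.perp R₁ := (hU1 hf).2
    have h3 := (Submodule.disjoint_def.mp (Frob.isCompl_perp R₁).disjoint) f h1 h2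
    rw [h3]
    exact Submodule.zero_mem _

end Pool.Agent.Lib.MP_640417_ag.Wc
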