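import Pool.Agent.Lib.MP_640417_ag.Wc.Spec
import Pool.Agent.Lib.MP_640417_ag.Peel
import Pool.Agent.Lib.MP_640417_ag.RelExotic

/-!
# Exotic classes come from small subfields: the algebraic part (`StAlg`)
-/

namespace Pool.Agent.Lib.MP_640417_ag.Wc

open Module Finset MulAction NumberField Pool.Agent.Lib.MP_640417_ag
  Pool.Agent.Lib.MP_640417_ag.Far Pool.Agent.Lib.MP_640417_ag.Full
  Pool.Agent.Lib.MP_640417_ag.Sharp

section aux

variable {E : Type} [Field E] [NumberField E]

private lemma alg_exists_ofFn {α : Type} (N : ℕ) (l : List α) (h : l.length = N) :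
    ∃ w : Fin N → α, l = List.ofFn w := by
  subst h
  exact ⟨l.get, (List.ofFn_get l).symm⟩

/-- the weight of a list -/
private noncomputable def wt (Φ : Set (Emb E)) {n : ℕ} (τ : AbsGal) (p : Emb E × Fin n) : ℤ := by
  classical exact if galEmb τ p.1 ∈ Φ then 1 else 0

private lemma wt_sum (Φ : Set (Emb E)) {n : ℕ} [DecidableEq (Emb E × Fin n)]
    (l : List (Emb E × Fin n)) (hl : l.Nodup) (τ : AbsGal) :
    ∑ φ : Emb E, Set.indicator {φ : Emb E | galEmb τ φ ∈ Φ} (multFun l.toFinset) φ =
      (l.map (wt Φ τ)).sum := by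
  classical
  have h1 := sum_mult l.toFinset (fun φ => if galEmb τ φ ∈ Φ then (1 : ℤ) else 0)
  have h2 : ∑ φ : Emb E, Set.indicator {φ : Emb E | galEmb τ φ ∈ Φ} (multFun l.toFinset) φ =
      ∑ φ : Emb E, multFun l.toFinset φ * (if galEmb τ φ ∈ Φ then (1 : ℤ) else 0) := by
    apply Finset.sum_congr rfl
    intro φ _
    by_cases h : galEmb τ φ ∈ Φ
    · rw [Set.indicator_of_mem (by exact h)]; simp [h]
    · rw [Set.indicator_of_notMem (by exact h)]; simp [h]
  rw [h2, ← h1, List.sum_toFinset _ hl]
  congr 1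

private lemma alg_prod_one {F : Type} [Field F] (r : Emb E → Emb E → Prop) (hr : Equivalence r)
    (t : Emb E → F) (m : Emb E → ℕ) [DecidableRel r]
    (ht : ∀ ψ : Emb E, ∏ φ : Emb E, (if r φ ψ then t φ else 1) = 1)
    (hm : ∀ φ ψ, r φ ψ → m φ = m ψ) : ∏ φ : Emb E, t φ ^ m φ = 1 := by
  classical
  let s : Setoid (Emb E) := ⟨r, hr⟩
  rw [← Finset.prod_fiberwise (s := Finset.univ) (g := fun φ : Emb E => (Quotient.mk s φ))]
  apply Finset.prod_eq_one
  intro q _
  obtain ⟨ψ, rfl⟩ := Quotient.exists_rep q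
  have h1 : ∀ φ : Emb E, (Quotient.mk s φ = Quotient.mk s ψ) ↔ r φ ψ := by
    intro φ
    exact Quotient.eq (r := s)
  have h2 : ∏ φ ∈ Finset.univ.filter (fun φ : Emb E => Quotient.mk s φ = Quotient.mk s ψ),
      t φ ^ m φ = (∏ φ ∈ Finset.univ.filter
        (fun φ : Emb E => Quotient.mk s φ = Quotient.mk s ψ), t φ) ^ m ψ := by
    rw [← Finset.prod_pow]
    apply Finset.prod_congr rfl
    intro φ hφ
    rw [Finset.mem_filter] at hφ
    rw [hm φ ψ ((h1 φ).1 hφ.2)]
  rw [h2]
  have h3 : ∏ φ ∈ Finset.univ.filter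
      (fun φ : Emb E => Quotient.mk s φ = Quotient.mk s ψ), t φ = 1 := by
    rw [← ht ψ, Finset.prod_filter]
    apply Finset.prod_congr rfl
    intro φ _
    by_cases h : r φ ψ
    · rw [if_pos h, if_pos ((h1 φ).2 h)]
    · rw [if_neg h, if_neg (fun hh => h ((h1 φ).1 hh))]
  rw [h3, one_pow]

private lemma alg_prod_count {F : Type} [Field F] [DecidableEq (Emb E)] {n : ℕ}
    (l : List (Emb E × Fin n)) (t : Emb E → F) :
    (l.map (fun p => t p.1)).prod = ∏ φ : Emb E, t φ ^ (l.map Prod.fst).count φ := by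
  have h1 : l.map (fun p => t p.1) = (l.map Prod.fst).map t := by
    rw [List.map_map]
    rfl
  rw [h1, Finset.prod_list_map_count]
  apply Finset.prod_subset (Finset.subset_univ _)
  intro φ _ hφ
  rw [List.mem_toFinset] at hφ
  rw [List.count_eq_zero_of_not_mem hφ, pow_zero]

variable [IsCMField E]

omit [IsCMField E] in
private lemma alg_sgn (Φ : Set (Emb E)) (φ : Emb E) : ((sgnZ Φ φ : ℤ) : ℝ) = sgnVec Φ φ := by
  classical
  simp only [sgnZ, sgnVec]
  by_cases h : φ ∈ Φ <;> simp [h]

/-- the multiplicities of an unmixed monomial are constant on the fibres -/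
private lemma alg_mult {Φ : Set (Emb E)} (hΦ : IsCMType Φ) (M : IntermediateField ℚ E)
    (hM : ∀ v ∈ relLattice Φ, ∀ φ ψ : Emb E, (∀ x ∈ M, φ x = ψ x) → v φ = v ψ)
    [DecidableEq (Emb E)] {n i : ℕ} [DecidableEq (Emb E × Fin n)] (l : List (Emb E × Fin n))
    (hl : l.Nodup) (hlen : l.length = 2 * i)
    (hw : ∀ τ : AbsGal, ∑ φ : Emb E, Set.indicator {φ : Emb E | galEmb τ φ ∈ Φ}
        (multFun l.toFinset) φ = i)
    (hno : ∀ p ∈ l, ∀ q ∈ l, q.1 ≠ conjEmb p.1) (φ ψ : Emb E) (h : ∀ x ∈ M, φ x = ψ x) :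
    (l.map Prod.fst).count φ = (l.map Prod.fst).count ψ := by
  let v : Emb E → ℤ := fun φ =>
    ((l.map Prod.fst).count φ : ℤ) - ((l.map Prod.fst).count (conjEmb φ) : ℤ)
  have hv : v ∈ relLattice Φ := by
    rw [mem_relLattice]
    refine ⟨fun φ => ?_, fun τ => ?_⟩
    · simp only [v, conjEmb_conjEmb]
      ring
    · have h1 := sum_odd_count_eq_zero hΦ l hl hlen hw τ
      have h2 : ((∑ φ, v φ * sgnZ Φ (galEmb τ φ) : ℤ) : ℝ) = 0 := by
        rw [← h1]
        push_cast
        apply Finset.sum_congr rfl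
        intro φ _
        rw [alg_sgn]
        simp only [v]
        push_cast
        ring
      exact_mod_cast h2
  have h3 : ∀ φ : Emb E, (l.map Prod.fst).count φ = 0 ∨
      (l.map Prod.fst).count (conjEmb φ) = 0 := by
    intro φ
    by_contra hcon
    push Not at hcon
    obtain ⟨h4, h5⟩ := hcon
    have h6 := List.count_pos_iff.1 (Nat.pos_of_ne_zero h4)
    have h7 := List.count_pos_iff.1 (Nat.pos_of_ne_zero h5)
    obtain ⟨p, hp, hp'⟩ := List.mem_map.1 h6
    obtain ⟨q, hq, hq'⟩ := List.mem_map.1 h7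
    exact hno p hp q hq (by rw [hq', hp'])
  have h4 : ∀ φ : Emb E, ((l.map Prod.fst).count φ : ℤ) = max (v φ) 0 := by
    intro φ
    rcases h3 φ with h5 | h5
    · simp only [v, h5]
      rw [max_eq_right (by simp)]
      rfl
    · simp only [v, h5]
      rw [max_eq_left (by simp)]
      simp
  have h5 : ((l.map Prod.fst).count φ : ℤ) = ((l.map Prod.fst).count ψ : ℤ) := by
    rw [h4, h4, hM v hv φ ψ h]
  exact_mod_cast h5

end aux

theorem pAlg : StAlg := by
  classical
  intro E _ _ _ Φ hΦ M hM Γ _ _ F _ ρ n i x hx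
  obtain ⟨z, rfl, hz⟩ := (tateClass_iff ρ n i x).1 hx
  have hdiv : ρ.divisorAlgebra n ≤ normAlg M n (ρ.onH1 n) ρ.χ := by
    rw [← divisorAlg_eq]
    unfold divisorAlg normAlg
    apply Algebra.adjoin_mono
    intro y hy
    exact Or.inl hy
  refine coe_eq_sum_monomials ρ z hz _ ?_
  clear hz hx z
  induction i with
  | zero =>
    intro l _ hlen _
    have h1 : l = [] := List.length_eq_zero_iff.1 (by simpa using hlen)
    rw [h1]
    simp only [mono, List.map_nil, List.prod_nil]
    exact Subalgebra.one_mem _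
  | succ i ih =>
    intro l hl hlen hw
    by_cases hpair : ∃ p ∈ l, ∃ q ∈ l, q.1 = conjEmb p.1
    · obtain ⟨p, hp, q, hq, hpq⟩ := hpair
      have hne : q ≠ p := by
        intro h
        rw [h] at hpq
        exact conjEmb_ne p.1 hpq.symm
      have h1 : l.Perm (p :: l.erase p) := List.perm_cons_erase hp
      have hq' : q ∈ l.erase p := (List.mem_erase_of_ne hne).2 hq
      have h2 : (l.erase p).Perm (q :: (l.erase p).erase q) := List.perm_cons_erase hq'
      have h3 : l.Perm (p :: q :: (l.erase p).erase q) := h1.trans (h2.cons p)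
      set l' := (l.erase p).erase q with hl'
      have hl'n : l'.Nodup := (hl.erase p).erase q
      have hl'len : l'.length = 2 * i := by
        have h4 := h3.length_eq
        simp only [List.length_cons] at h4
        omega
      refine mono_mem_of_perm _ h3 ?_
      have h5 : mono F (p :: q :: l') = ev F p * ev F q * mono F l' := by
        simp only [mono, List.map_cons, List.prod_cons, mul_assoc]
      rw [h5]
      refine Subalgebra.mul_mem _ (hdiv (pair_mem_divisorAlgebra ρ hΦ p q hpq)) ?_
      refine ih l' hl'n hl'len ?_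
      intro τ
      have h6 := hw τ
      rw [wt_sum Φ l hl τ] at h6
      rw [wt_sum Φ l' hl'n τ]
      have h7 : (l.map (wt Φ τ)).sum = ((p :: q :: l').map (wt Φ τ)).sum :=
        (h3.map (wt Φ τ)).sum_eq
      rw [h7] at h6
      simp only [List.map_cons, List.sum_cons] at h6
      have h8 : wt Φ τ p + wt Φ τ q = 1 := by
        simp only [wt]
        rw [hpq, galEmb_conjEmb]
        by_cases h9 : galEmb τ p.1 ∈ Φ
        · have h10 := (hΦ _).1 h9
          simp [h9, h10]
        · have h10 : conjEmb (galEmb τ p.1) ∈ Φ := by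
            by_contra h11
            exact h9 ((hΦ _).2 h11)
          simp [h9, h10]
      push_cast at h6
      linarith
    · push Not at hpair
      apply Algebra.subset_adjoin
      right
      constructor
      · refine ⟨i + 1, ?_⟩
        obtain ⟨w, hwl⟩ := alg_exists_ofFn (2 * (i + 1)) l hlen
        rw [tateClass_iff]
        refine ⟨exteriorPower.ιMulti F (2 * (i + 1)) (fun k => Pi.single (w k) (1 : F)), ?_, ?_⟩
        · rw [exteriorPower.ιMulti_apply_coe, ExteriorAlgebra.ιMulti_apply, hwl, mono,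
            List.map_ofFn]
          rfl
        · apply isTateClass_monomial
          intro τ
          have h6 := hw τ
          rw [wt_sum Φ l hl τ, hwl, List.map_ofFn, List.sum_ofFn] at h6
          have h7 : ∑ k, (wt Φ τ ∘ w) k =
              ((Finset.univ.filter (fun k => galEmb τ (w k).1 ∈ Φ)).card : ℤ) := by
            rw [Finset.card_filter]
            push_cast
            apply Finset.sum_congr rfl
            intro k _
            simp only [Function.comp_apply, wt]
          rw [h7] at h6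
          exact_mod_cast h6
      · intro t ht
        rw [map_scale_mono (fun p => t p.1) l, alg_prod_count l t]
        have h8 : ∏ φ : Emb E, t φ ^ (l.map Prod.fst).count φ = 1 := by
          refine alg_prod_one (fun φ ψ => ∀ y ∈ M, φ y = ψ y)
            ⟨fun φ y _ => rfl, fun h y hy => (h y hy).symm,
              fun h h' y hy => (h y hy).trans (h' y hy)⟩ t _ ?_ ?_
          · intro ψ
            exact ht ψ
          · intro φ ψ h
            exact alg_mult hΦ M hM l hl hlen hw hpair φ ψ h
        rw [h8, one_smul]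

end Pool.Agent.Lib.MP_640417_ag.Wc
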