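import Pool.Agent.Lib.MP_640417_ag.Wc.Spec
import Pool.Agent.Lib.MP_640417_ag.Sharp.CorrA

/-!
# Embeddings with the same restriction to the small subfield
-/

set_option autoImplicit false

namespace Pool.Agent.Lib.MP_640417_ag.Wc

open Module Finset MulAction NumberField Pool.Agent.Lib.MP_640417_ag
  Pool.Agent.Lib.MP_640417_ag.Far Pool.Agent.Lib.MP_640417_ag.Full
  Pool.Agent.Lib.MP_640417_ag.Sharp

section

variable {E : Type} [Field E] [NumberField E]

private lemma smul_congr_emb (φ ψ : Emb E) (x : E) (h : φ x = ψ x) (γ : galGroup E) :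
    (γ • φ : Emb E) x = (γ • ψ : Emb E) x := by
  obtain ⟨τ, hτ⟩ := exists_of_galGroup γ
  rw [hτ, hτ, galEmb_apply, galEmb_apply, h]

/-- The subgroup of the elements which fix `φ₀ K` pointwise. -/
private noncomputable def fixSub (φ₀ : Emb E) (K : IntermediateField ℚ E) :
    Subgroup (galGroup E) where
  carrier := {γ | ∀ x ∈ K, (γ • φ₀ : Emb E) x = φ₀ x}
  mul_mem' := by
    intro a b ha hb x hx
    have h1 := smul_congr_emb _ _ _ (hb x hx) a
    rw [← mul_smul] at h1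
    rw [h1]
    exact ha x hx
  one_mem' := by
    intro x _
    rw [one_smul]
  inv_mem' := by
    intro a ha x hx
    have h1 := smul_congr_emb _ _ _ (ha x hx) a⁻¹
    rw [← mul_smul, inv_mul_cancel, one_smul] at h1
    exact h1.symm

end

theorem pRestr : StRestr := by
  intro E _ _ _ φ₀ z hz φ ψ hφψ
  have hpre : IsPretransitive (galGroup E) (Emb E) := isPretransitive_galGroup
  obtain ⟨_, h2, h3⟩ := pCorrA E φ₀ z hz
  obtain ⟨γ, hγ⟩ := exists_smul_eq (galGroup E) φ₀ φ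
  obtain ⟨γ', hγ'⟩ := exists_smul_eq (galGroup E) φ₀ ψ
  refine ⟨γ, γ', hγ.symm, hγ'.symm, ?_⟩
  -- the quotient fixes `φ₀` on the small field
  have hν : ∀ x ∈ smallField E, ((γ⁻¹ * γ') • φ₀ : Emb E) x = φ₀ x := by
    intro x hx
    have h := smul_congr_emb _ _ _ (hφψ x hx) γ⁻¹
    rw [← hγ, ← hγ', inv_smul_smul, ← mul_smul] at h
    exact h.symm
  unfold smallSub
  rw [Subgroup.mem_sInf]
  rintro H ⟨hH, hzH, hidx⟩
  have hle : fixAt φ₀ H ≤ smallField E := by
    apply le_sSup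
    obtain ⟨hr, hn⟩ := h3 H hH
    refine ⟨hn.1 hzH, ?_⟩
    rw [hr]
    rcases hidx with h | h | ⟨h, H', hHH', hidx', hzH'⟩
    · exact Or.inl h
    · exact Or.inr (Or.inl h)
    · refine Or.inr (Or.inr ⟨h, fixAt φ₀ H', ?_, ?_, ?_⟩)
      · exact (h2 H' H (hH.trans hHH') hH).2 hHH'
      · rw [(h3 H' (hH.trans hHH')).1]
        exact hidx'
      · exact (h3 H' (hH.trans hHH')).2.1 hzH'
  have hstab : stabilizer (galGroup E) φ₀ ≤ fixSub φ₀ (fixAt φ₀ H) := by
    intro γ hγ x _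
    rw [mem_stabilizer_iff] at hγ
    rw [hγ]
  have hsub : fixSub φ₀ (fixAt φ₀ H) ≤ H := by
    rw [← h2 H _ hH hstab]
    intro x hx ν hν
    exact hν x hx
  exact hsub fun x hx => hν x (hle hx)

end Pool.Agent.Lib.MP_640417_ag.Wc
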