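import Pool.Agent.Lib.MP_640417_ag.Wc.Spec
import Pool.Agent.Lib.MP_640417_ag.Sharp.EvIndex
import Pool.Agent.Lib.MP_640417_ag.Sharp.EvSp
import Pool.Agent.Lib.MP_640417_ag.Sharp.KerDih
import Pool.Agent.Lib.MP_640417_ag.Full.Mult
import Pool.Agent.Lib.MP_640417_ag.Full.HomDim
import Pool.Agent.Lib.MP_640417_ag.Translates

/-!
# Small irreducible odd spaces are constant on the cosets of `smallSub` (statement `StSmallIn`)
-/

set_option autoImplicit false

namespace Pool.Agent.Lib.MP_640417_ag.Wc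

open Module Finset MulAction NumberField Pool.Agent.Lib.MP_640417_ag
  Pool.Agent.Lib.MP_640417_ag.Far Pool.Agent.Lib.MP_640417_ag.Full
  Pool.Agent.Lib.MP_640417_ag.Sharp

section dihedral

open DihedralGroup

/-- membership in the subgroup `r (2 k), sr (2 k)` (or `r (2 k), sr (2 k + 1)`) -/
private def SmallInP (i : Bool) : DihedralGroup 6 → Bool
  | r j => j.val % 2 == 0
  | sr j => (j.val % 2 == 0) == i

set_option maxRecDepth 20000 in
/-- the dihedral subgroups of order `6` of the dihedral group of order `12` -/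
private def SmallInP6 (i : Bool) : Subgroup (DihedralGroup 6) where
  carrier := {x | SmallInP i x = true}
  mul_mem' := by
    have h : ∀ (i : Bool) (a b : DihedralGroup 6), SmallInP i a = true → SmallInP i b = true →
      SmallInP i (a * b) = true := by decide
    exact fun {a b} => h i a b
  one_mem' := by
    have h : ∀ (i : Bool), SmallInP i 1 = true := by decide
    exact h i
  inv_mem' := by
    have h : ∀ (i : Bool) (a : DihedralGroup 6), SmallInP i a = true →
      SmallInP i (a⁻¹) = true := by decide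
    exact fun {a} => h i a

private lemma SmallIn_memP6 (i : Bool) (x : DihedralGroup 6) :
    x ∈ SmallInP6 i ↔ SmallInP i x = true := Iff.rfl

set_option maxRecDepth 20000 in
private lemma SmallIn_index (i : Bool) : (SmallInP6 i).index = 2 := by
  rw [Subgroup.index_eq_two_iff]
  refine ⟨r 1, fun b => ?_⟩
  rw [SmallIn_memP6, SmallIn_memP6]
  revert i b
  decide

set_option maxRecDepth 20000 in
private lemma SmallIn_c6 : ∀ x : DihedralGroup 6, (∀ y, y * x = x * y) → x = 1 ∨ x = r 3 := by
  decide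

set_option maxRecDepth 20000 in
private lemma SmallIn_c4 : ∀ x : DihedralGroup 4, (∀ y, y * x = x * y) → x = 1 ∨ x = r 2 := by
  decide

private lemma SmallIn_zpow {n : ℕ} (i : ZMod n) (x : DihedralGroup n)
    (hx : x ∈ Subgroup.zpowers (sr i : DihedralGroup n)) : x = 1 ∨ x = sr i := by
  have h2 : (sr i : DihedralGroup n) ^ (2 : ℤ) = 1 := by
    rw [zpow_two, sr_mul_self]
  obtain ⟨k, rfl⟩ := Subgroup.mem_zpowers_iff.1 hx
  rcases Int.even_or_odd' k with ⟨m, h | h⟩
  · left
    rw [h, zpow_mul, h2, one_zpow]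
  · right
    rw [h, zpow_add, zpow_mul, h2, one_zpow, one_mul, zpow_one]

private lemma SmallIn_zindex {n : ℕ} (i : ZMod n) :
    (Subgroup.zpowers (sr i : DihedralGroup n)).index = n := by
  have h1 := Subgroup.card_mul_index (Subgroup.zpowers (sr i : DihedralGroup n))
  rw [Nat.card_zpowers, orderOf_sr, DihedralGroup.nat_card] at h1
  omega

/-- The argument for dihedral quotients. -/
private lemma SmallIn_dih {S G : Type} [Group G] [MulAction G S] (s₀ : S) (z : G)
    (hz : ∀ γ : G, γ * z = z * γ) (K : Subgroup G) (hK : stabilizer G s₀ ≤ K) (hzK : z ∉ K)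
    (hd : IsDih 4 K ∨ IsDih 6 K) : smallSub s₀ z ≤ K := by
  intro ν hν
  have hmem : ∀ H : Subgroup G, stabilizer G s₀ ≤ H → z ∉ H →
      (H.index = 2 ∨ H.index = 4 ∨ (H.index = 6 ∧
        ∃ H' : Subgroup G, H ≤ H' ∧ H'.index = 2 ∧ z ∉ H')) → ν ∈ H := by
    intro H h1 h2 h3
    exact Subgroup.mem_sInf.1 hν H ⟨h1, h2, h3⟩
  rcases hd with ⟨hN, ⟨e⟩⟩ | ⟨hN, ⟨e⟩⟩
  · let f : G →* DihedralGroup 4 := e.toMonoidHom.comp (QuotientGroup.mk' K)
    have hsur : Function.Surjective f := e.surjective.comp (QuotientGroup.mk'_surjective K)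
    have hker : ∀ x, f x = 1 ↔ x ∈ K := by
      intro x
      change e (QuotientGroup.mk' K x) = 1 ↔ x ∈ K
      rw [map_eq_one_iff e e.injective]
      exact QuotientGroup.eq_one_iff x
    have hcen : f z = r 2 := by
      rcases SmallIn_c4 (f z) (fun y => by
        obtain ⟨g, rfl⟩ := hsur y
        rw [← map_mul, hz, map_mul]) with h | h
      · exact absurd ((hker z).1 h) hzK
      · exact h
    have hi : ∀ i : ZMod 4, f ν ∈ Subgroup.zpowers (sr i : DihedralGroup 4) := by
      intro i
      refine hmem ((Subgroup.zpowers (sr i : DihedralGroup 4)).comap f) ?_ ?_ (Or.inr (Or.inl ?_))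
      · intro x hx
        rw [Subgroup.mem_comap, (hker x).2 (hK hx)]
        exact one_mem _
      · rw [Subgroup.mem_comap, hcen]
        intro h
        rcases SmallIn_zpow i _ h with h | h
        · revert h
          decide
        · exact absurd h (by simp)
      · rw [Subgroup.index_comap_of_surjective _ hsur, SmallIn_zindex]
    rw [← hker]
    rcases SmallIn_zpow 0 _ (hi 0) with h | h
    · exact h
    · rcases SmallIn_zpow 1 _ (hi 1) with h' | h'
      · exact h'
      · rw [h] at h'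
        exfalso
        revert h'
        decide
  · let f : G →* DihedralGroup 6 := e.toMonoidHom.comp (QuotientGroup.mk' K)
    have hsur : Function.Surjective f := e.surjective.comp (QuotientGroup.mk'_surjective K)
    have hker : ∀ x, f x = 1 ↔ x ∈ K := by
      intro x
      change e (QuotientGroup.mk' K x) = 1 ↔ x ∈ K
      rw [map_eq_one_iff e e.injective]
      exact QuotientGroup.eq_one_iff x
    have hcen : f z = r 3 := by
      rcases SmallIn_c6 (f z) (fun y => by
        obtain ⟨g, rfl⟩ := hsur y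
        rw [← map_mul, hz, map_mul]) with h | h
      · exact absurd ((hker z).1 h) hzK
      · exact h
    have hi : ∀ i : ZMod 6, f ν ∈ Subgroup.zpowers (sr i : DihedralGroup 6) := by
      intro i
      refine hmem ((Subgroup.zpowers (sr i : DihedralGroup 6)).comap f) ?_ ?_
        (Or.inr (Or.inr ⟨?_, (SmallInP6 (i.val % 2 == 0)).comap f, ?_, ?_, ?_⟩))
      · intro x hx
        rw [Subgroup.mem_comap, (hker x).2 (hK hx)]
        exact one_mem _
      · rw [Subgroup.mem_comap, hcen]
        intro h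
        rcases SmallIn_zpow i _ h with h | h
        · revert h
          decide
        · exact absurd h (by simp)
      · rw [Subgroup.index_comap_of_surjective _ hsur, SmallIn_zindex]
      · apply Subgroup.comap_mono
        rw [Subgroup.zpowers_le, SmallIn_memP6]
        revert i
        decide
      · rw [Subgroup.index_comap_of_surjective _ hsur, SmallIn_index]
      · rw [Subgroup.mem_comap, hcen, SmallIn_memP6]
        revert i
        decide
    rw [← hker]
    rcases SmallIn_zpow 0 _ (hi 0) with h | h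
    · exact h
    · rcases SmallIn_zpow 1 _ (hi 1) with h' | h'
      · exact h'
      · rw [h] at h'
        exfalso
        revert h'
        decide

end dihedral

section line

variable {S G : Type} [Fintype S] [Group G] [MulAction G S] [IsPretransitive G S]

/-- The kernel of a stable line. -/
private lemma SmallIn_line (s₀ : S) (z : G) (U : Submodule ℚ (S → ℚ)) (hU : IsIrr G U)
    (hodd : IsOddSp z U) (h1 : finrank ℚ U = 1) :
    stabilizer G s₀ ≤ kerSub G U ∧ (kerSub G U).index = 2 ∧ z ∉ kerSub G U := by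
  obtain ⟨v, hv0, hv⟩ := finrank_eq_one_iff'.mp h1
  have hv0' : (v : S → ℚ) ≠ 0 := fun h => hv0 (Subtype.ext h)
  have hspan : U = Submodule.span ℚ {(v : S → ℚ)} := by
    apply le_antisymm
    · intro w hw
      obtain ⟨c, hc⟩ := hv ⟨w, hw⟩
      rw [Submodule.mem_span_singleton]
      exact ⟨c, congrArg Subtype.val hc⟩
    · rw [Submodule.span_singleton_le_iff_mem]
      exact v.2
  have hχ : ∀ γ : G, ∃ c : ℚ, ∀ s, v.1 (γ • s) = c * v.1 s := by
    intro γ
    obtain ⟨c, hc⟩ := hv ⟨_, hU.2.1 v.1 v.2 γ⟩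
    refine ⟨c, fun s => ?_⟩
    have := congrFun (congrArg Subtype.val hc) s
    simpa using this.symm
  choose χ hχ using hχ
  obtain ⟨t, ht⟩ := Function.ne_iff.mp hv0'
  have ht' : v.1 t ≠ 0 := by simpa using ht
  have hs0 : v.1 s₀ ≠ 0 := by
    intro h
    obtain ⟨γ, hγ⟩ := MulAction.exists_smul_eq G s₀ t
    apply ht'
    rw [← hγ, hχ, h, mul_zero]
  have hsq : ∀ γ, χ γ ^ 2 = 1 := by
    intro γ
    have h2 : ∑ s, v.1 (γ • s) ^ 2 = ∑ s, v.1 s ^ 2 :=
      Fintype.sum_equiv (MulAction.toPerm γ) _ _ (fun s => rfl)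
    have h3 : ∑ s, v.1 (γ • s) ^ 2 = χ γ ^ 2 * ∑ s, v.1 s ^ 2 := by
      rw [Finset.mul_sum]
      refine Finset.sum_congr rfl fun s _ => ?_
      rw [hχ, mul_pow]
    have h4 : 0 < ∑ s, v.1 s ^ 2 := by
      refine Finset.sum_pos' (fun s _ => sq_nonneg _) ⟨s₀, Finset.mem_univ _, ?_⟩
      positivity
    have h5 : χ γ ^ 2 * ∑ s, v.1 s ^ 2 = 1 * ∑ s, v.1 s ^ 2 := by
      rw [← h3, h2, one_mul]
    exact mul_right_cancel₀ h4.ne' h5
  have hmul : ∀ γ δ, χ (γ * δ) = χ γ * χ δ := by
    intro γ δ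
    have h2 : χ (γ * δ) * v.1 s₀ = χ γ * χ δ * v.1 s₀ := by
      rw [← hχ, mul_smul, hχ, hχ]
      ring
    exact mul_right_cancel₀ hs0 h2
  have hpm : ∀ γ, χ γ = 1 ∨ χ γ = -1 := fun γ => sq_eq_one_iff.mp (hsq γ)
  have hker : ∀ γ, γ ∈ kerSub G U ↔ χ γ = 1 := by
    intro γ
    rw [mem_kerSub]
    constructor
    · intro h
      have h2 := h v.1 v.2 s₀
      rw [hχ] at h2
      exact mul_right_cancel₀ hs0 (by rw [h2, one_mul])
    · intro h f hf s
      rw [hspan, Submodule.mem_span_singleton] at hf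
      obtain ⟨c, rfl⟩ := hf
      simp only [Pi.smul_apply, hχ, h, one_mul]
  have hz : χ z = -1 := by
    have h2 := hodd v.1 v.2 s₀
    rw [hχ] at h2
    have : χ z * v.1 s₀ = -1 * v.1 s₀ := by rw [h2]; ring
    exact mul_right_cancel₀ hs0 this
  refine ⟨?_, ?_, ?_⟩
  · intro γ hγ
    rw [hker]
    have h1 := hχ γ s₀
    rw [MulAction.mem_stabilizer_iff.mp hγ] at h1
    exact (mul_right_cancel₀ hs0 (by rw [one_mul]; exact h1)).symm
  · rw [Subgroup.index_eq_two_iff]
    refine ⟨z, fun b => ?_⟩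
    rw [hker, hker, hmul, hz]
    rcases hpm b with h | h
    · rw [h]
      right
      norm_num
    · rw [h]
      left
      norm_num
  · rw [hker, hz]
    norm_num

end line

private lemma SmallIn_one_le {S G F : Type} [Finite S] [Group G] [MulAction G S] [Field F]
    (U : Submodule F (S → F)) (hU0 : U ≠ ⊥) : 1 ≤ finrank F (endF G U) := by
  obtain ⟨f, hf, hf0⟩ := Submodule.exists_mem_ne_zero_of_ne_bot hU0
  have hfin : Module.Finite F (endF G U) := inferInstance
  let _ : AddCommGroup (endF G U) := @Submodule.addCommGroup F (U →ₗ[F] U) _ _ _ (endF G U)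
  have hne : Nontrivial (endF G U) := by
    refine ⟨⟨⟨LinearMap.id, one_mem_endF G U⟩, 0, ?_⟩⟩
    intro h
    have h1 := congrArg Subtype.val h
    have h4 : (⟨f, hf⟩ : U) = 0 := LinearMap.congr_fun h1 ⟨f, hf⟩
    exact hf0 (congrArg Subtype.val h4)
  exact Module.finrank_pos (R := F) (M := endF G U)

/-- Functions of a stable space are constant on the cosets of the kernel. -/
private lemma SmallIn_const {S G : Type} [Group G] [MulAction G S] (s₀ : S)
    (U : Submodule ℚ (S → ℚ)) (hU : IsStab G U) (u : S → ℚ) (hu : u ∈ U) (γ γ' : G)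
    (h : γ⁻¹ * γ' ∈ kerSub G U) : u (γ • s₀) = u (γ' • s₀) := by
  have hN := kerSub_normal U hU
  have h1 := hN.conj_mem _ h γ
  have h2 : γ * (γ⁻¹ * γ') * γ⁻¹ = γ' * γ⁻¹ := by group
  rw [h2] at h1
  have h3 := (mem_kerSub U _).1 h1 u hu (γ • s₀)
  rw [mul_smul, inv_smul_smul] at h3
  exact h3.symm

theorem pSmallIn : StSmallIn := by
  intro S G _ _ _ _ _ s₀ z hz hzz hzne U hU hodd h2 u hu γ γ' hν
  have hmem : ∀ H : Subgroup G, stabilizer G s₀ ≤ H → z ∉ H →
      (H.index = 2 ∨ H.index = 4 ∨ (H.index = 6 ∧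
        ∃ H' : Subgroup G, H ≤ H' ∧ H'.index = 2 ∧ z ∉ H')) → γ⁻¹ * γ' ∈ H := by
    intro H h1 h2 h3
    exact Subgroup.mem_sInf.1 hν H ⟨h1, h2, h3⟩
  have hpos : 0 < finrank ℚ U := by
    rw [Nat.pos_iff_ne_zero]
    intro h
    exact hU.1 (Submodule.finrank_eq_zero.1 h)
  have hcases : finrank ℚ U = 1 ∨ finrank ℚ U = 2 := by omega
  rcases hcases with h1 | h2
  · obtain ⟨ha, hb, hc⟩ := SmallIn_line s₀ z U hU hodd h1
    exact SmallIn_const s₀ U hU.2.1 u hu γ γ' (hmem _ ha hc (Or.inl hb))
  · -- the multiplicity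
    obtain ⟨X, hX⟩ := exists_transversal (fun s : S => z • s) hzz hzne
    obtain ⟨m, hm1, hm2, -⟩ := pMult pHomDim S G s₀ z hzz X hX 1 (fun _ => U)
      (fun _ => ⟨hU, hodd⟩) (fun i j hij => absurd (Subsingleton.elim i j) hij)
    have hm1 := hm1 0
    have hm2 : finrank ℚ ↥(U ⊓ invF ℚ (stabilizer G s₀)) = m 0 * finrank ℚ (endF G U) := hm2 0
    have hh2 : finrank ℚ ↥(U ⊓ invF ℚ (stabilizer G s₀)) ≤ 2 := by
      rw [← h2]
      exact Submodule.finrank_mono inf_le_left
    have he : 1 ≤ finrank ℚ (endF G U) := SmallIn_one_le U hU.1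
    have hle : finrank ℚ (endF G U) ≤ finrank ℚ ↥(U ⊓ invF ℚ (stabilizer G s₀)) := by
      rw [hm2]
      exact Nat.le_mul_of_pos_left _ hm1
    by_cases heq : finrank ℚ (endF G U) = finrank ℚ ↥(U ⊓ invF ℚ (stabilizer G s₀))
    · obtain ⟨ha, hb, hc⟩ := pEvIndex S G s₀ z U hU hodd h2 heq
      have hH0 : γ⁻¹ * γ' ∈ H0 G s₀ U := by
        refine hmem _ ha hb ?_
        rcases hc with ⟨-, h4⟩ | ⟨-, h6⟩
        · exact Or.inr (Or.inl h4)
        · obtain ⟨-, hs⟩ := pEvSp S G s₀ z hz hzz U hU hodd h2 ha hb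
          obtain ⟨⟨_, _, _, hH'⟩, _⟩ := hs h6
          exact Or.inr (Or.inr ⟨h6, hH'⟩)
      have h5 := (mem_H0 s₀ U _).1 hH0 u hu γ
      rw [← mul_smul, mul_inv_cancel_left] at h5
      exact h5.symm
    · have he1 : finrank ℚ (endF G U) = 1 := by omega
      have hh : finrank ℚ ↥(U ⊓ invF ℚ (stabilizer G s₀)) = 2 := by omega
      have hUle : U ≤ invF ℚ (stabilizer G s₀) := by
        have h6 : U ⊓ invF ℚ (stabilizer G s₀) = U :=
          Submodule.eq_of_le_of_finrank_eq inf_le_left (by rw [hh, h2])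
        exact inf_eq_left.1 h6
      have hstab : stabilizer G s₀ ≤ kerSub G U := by
        intro b hb
        rw [mem_kerSub]
        intro f hf s
        exact (mem_invF _ f).1 (hUle hf) b hb s
      have hzK : z ∉ kerSub G U := by
        intro hzk
        apply hU.1
        rw [Submodule.eq_bot_iff]
        intro x hx
        funext s
        have h7 := (mem_kerSub U z).1 hzk x hx s
        have h8 := hodd x hx s
        have h9 : x s = - x s := by rw [← h8, h7]
        simp only [Pi.zero_apply]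
        linarith
      exact SmallIn_const s₀ U hU.2.1 u hu γ γ'
        (SmallIn_dih s₀ z hz (kerSub G U) hstab hzK (pKerDih S G z U hU hodd h2 he1) hν)

end Pool.Agent.Lib.MP_640417_ag.Wc
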