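import Pool.Agent.Lib.MP_640417_ag.Sharp.SpecF
import Pool.Agent.Lib.MP_640417_ag.Sharp.SpecU
import Pool.Agent.Lib.MP_640417_ag.IntRelation

/-!
# Exotic classes come from small subfields

For every CM field `E` and almost all CM types `Φ` on `E` all relations between the translates of
the sign vector of `Φ` are constant on the fibres of `Emb E → Emb M`, where `M` is the subfield
generated by the nonreal subfields of degree `2`, `4`, and of degree `6` with a nonreal quadratic
subfield. Then all Tate classes on the powers of `A_Φ` are generated by those of codimension `1` and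
those fixed by the norm one torus of `E / M`.
-/

namespace Pool.Agent.Lib.MP_640417_ag.Wc

open Module Finset MulAction NumberField Pool.Agent.Lib.MP_640417_ag
  Pool.Agent.Lib.MP_640417_ag.Far Pool.Agent.Lib.MP_640417_ag.Full
  Pool.Agent.Lib.MP_640417_ag.Sharp

section groups

variable {S G : Type} [Group G] [MulAction G S]

/-- The intersection of the subgroups of index `2`, `4`, and of index `6` inside a subgroup of
index `2`, all containing the stabilizer of `s₀` and not `z`. -/
def smallSub (s₀ : S) (z : G) : Subgroup G :=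
  sInf {H | stabilizer G s₀ ≤ H ∧ z ∉ H ∧ (H.index = 2 ∨ H.index = 4 ∨ (H.index = 6 ∧
    ∃ H' : Subgroup G, H ≤ H' ∧ H'.index = 2 ∧ z ∉ H'))}

end groups

/-- An irreducible subspace outside a given stable space.

Proof. Put `R₁ = R ⊓ C` and `R₂ = {f ∈ R | ∑ s, f s * c s = 0 for all c ∈ R₁}`. `R₂` is stable (substitute
`s ↦ γ⁻¹ • s`, `R₁` is stable). `R₁ ⊓ R₂ = ⊥` by positive definiteness, and
`finrank R₂ + finrank R₁ ≥ finrank R` (or: orthogonal projection of `R` to `R₁`; see `perp`,
`isCompl_perp`, `exists_decomp` in `Frob/IrrB.lean`), so `R₂ ≠ ⊥` because `R₁ ≠ R`. Choose a nonzero stable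
`U ≤ R₂` of smallest dimension. It is irreducible, and if `U ≤ C` then `U ≤ R₁ ⊓ R₂ = ⊥`. -/
def StIrrIn : Prop := ∀ (S G : Type) [Fintype S] [Group G] [MulAction G S]
  (R C : Submodule ℚ (S → ℚ)), IsStab G R → IsStab G C → ¬ R ≤ C →
  ∃ U : Submodule ℚ (S → ℚ), IsIrr G U ∧ U ≤ R ∧ ¬ U ≤ C

/-- Small irreducible spaces are constant on the cosets of `smallSub`.

Proof. It is enough to find a set of subgroups `H` as in the definition of `smallSub` such that `u` is
constant on the cosets of their intersection.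
 `finrank U = 1`: `U = ℚ u`, `u (γ • s) = χ γ * u s` with `χ γ = ± 1` (`u` takes some nonzero value, and
iterates), `χ z = - 1`, `u s₀ ≠ 0` by transitivity; `H = ker χ` has index `2`, contains the
stabilizer, not `z`, and `u (γ • s₀) = χ γ * u s₀` is constant on its cosets (see `Full/SubA.lean`).
 `finrank U = 2`: put `h = finrank (U ⊓ invF (stabilizer))`, `e = finrank (endF G U)`. `1 ≤ e ≤ h ≤ 2` (`h = m e`
by `StMult` for the family with one member, `pMult` in `Full/Mult.lean`; or `h ≥ e` directly).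
 (a) `e = h`: `pEvIndex` (`Sharp/EvIndex.lean`) gives that `H = H0 G s₀ U` has index `4` or `6`, contains the
stabilizer, not `z`; in the case of index `6` `pEvSp` (`Sharp/EvSp.lean`) gives `H ∈ sext s₀ z`. By
definition of `H0` `u (γ' • s₀) = u (γ • (γ⁻¹ γ') • s₀) = u (γ • s₀)` if `γ⁻¹ γ' ∈ H`.
 (b) `e = 1`, `h = 2`: `U ≤ invF (stabilizer)`, so `K = kerSub G U` contains the stabilizer; it is normal,
`z ∉ K`, and by `pKerDih` (`Sharp/KerDih.lean`) `G ⧸ K` is isomorphic to `DihedralGroup n`, `n = 4` or `6`.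
`u (γ' • s₀) = u (γ • s₀)` for `γ⁻¹ γ' ∈ K` (`γ' = (γ (γ⁻¹ γ') γ⁻¹) γ`, `K` is normal). Let `H₁`, `H₂` be the
preimages of `{1, sr 0}` and `{1, sr 1}`; their intersection is `K`. The image of `z` is central
and not `1`, so it is not `sr i` (`sr i * r 1 ≠ r 1 * sr i` in `DihedralGroup n`, `n ≥ 3`), and
`z ∉ H₁, H₂`. Their index is `n`. For `n = 6` `H₁` is contained in the preimage `H'` of the subgroup
`{r (2 k), sr (2 k)}`, `H₂` in the preimage of `{r (2 k), sr (2 k + 1)}`, of index `2`; they do not
contain `z`, since the image of `z` is the only nontrivial central element `r 3`. -/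
def StSmallIn : Prop := ∀ (S G : Type) [Fintype S] [Group G] [Finite G] [MulAction G S]
  [IsPretransitive G S] (s₀ : S) (z : G) (_ : ∀ γ : G, γ * z = z * γ)
  (_ : ∀ s : S, z • z • s = s) (_ : ∀ s : S, z • s ≠ s) (U : Submodule ℚ (S → ℚ)),
  IsIrr G U → IsOddSp z U → finrank ℚ U ≤ 2 →
  ∀ u ∈ U, ∀ γ γ' : G, γ⁻¹ * γ' ∈ smallSub s₀ z → u (γ • s₀) = u (γ' • s₀)

section fields

variable (E : Type) [Field E] [NumberField E] [IsCMField E]

/-- The subfield generated by the nonreal subfields of degree `2` and `4` over `ℚ` and those of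
degree `6` with a nonreal quadratic subfield. -/
noncomputable def smallField : IntermediateField ℚ E :=
  sSup {K : IntermediateField ℚ E | (∃ x ∈ K, IsCMField.complexConj E x ≠ x) ∧
    (finrank ℚ K = 2 ∨ finrank ℚ K = 4 ∨ (finrank ℚ K = 6 ∧
      ∃ K' : IntermediateField ℚ E, K' ≤ K ∧ finrank ℚ K' = 2 ∧
        ∃ x ∈ K', IsCMField.complexConj E x ≠ x))}

end fields

/-- Embeddings with the same restriction to `smallField E`.

Proof. Write `φ = γ • φ₀`, `ψ = γ' • φ₀` (transitivity). For `x` in `smallField E`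
`((γ⁻¹ γ') • φ₀) x = φ₀ x` (apply a preimage of `γ⁻¹` in `AbsGal` to `ψ x = φ x`). Let `H` be one of the subgroups
in the definition of `smallSub` and `K = fixAt φ₀ H` (`Full/SpecC.lean`). By `pCorrA` (`Sharp/CorrA.lean`,
statement `StCorrA` in `Sharp/SpecF.lean`) `finrank K = H.index`, `K` is nonreal, and for index `6`
`K' = fixAt φ₀ H'` is a nonreal quadratic subfield of `K`. So `K ≤ smallField E`, and `ν = γ⁻¹ γ'`
fixes `φ₀` on `K`. Then `ν ∈ H`: let `H₁ = H ⊔ zpowers ν`; `fixAt φ₀ H₁ = fixAt φ₀ H` (an element of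
`fixAt φ₀ H` is in `fixAt φ₀ H₁` because the set of the `μ` with `(μ • φ₀) x = φ₀ x` for all `x ∈ K` is a
subgroup: `K` may be replaced by `φ₀(K)`; see `corrA_mem_of_agree` in `Sharp/CorrA.lean`, which may
directly give `ν ∈ H`), so `H₁ ≤ H` by `StCorrA` (2). -/
def StRestr : Prop := ∀ (E : Type) [Field E] [NumberField E] [IsCMField E] (φ₀ : Emb E)
  (z : galGroup E) (_ : ∀ φ : Emb E, z • φ = conjEmb φ) (φ ψ : Emb E),
  (∀ x ∈ smallField E, φ x = ψ x) →
  ∃ γ γ' : galGroup E, φ = γ • φ₀ ∧ ψ = γ' • φ₀ ∧ γ⁻¹ * γ' ∈ smallSub φ₀ z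

open Classical in
/-- `x` is fixed by the norm one torus of `E / M`: by all diagonal automorphisms of `H¹(A)` with
entries `t φ` whose products over the embeddings with the same restriction to `M` are `1`. -/
def NormFixed {E : Type} [Field E] [NumberField E] {F : Type} [Field F]
    (M : IntermediateField ℚ E) {n : ℕ} (x : ExteriorAlgebra F (H1 E n F)) : Prop :=
  ∀ t : Emb E → F, (∀ ψ : Emb E, ∏ φ : Emb E, (if ∀ y ∈ M, φ y = ψ y then t φ else 1) = 1) →
    ExteriorAlgebra.map (LinearMap.pi fun p => t p.1 • LinearMap.proj p :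
      H1 E n F →ₗ[F] H1 E n F) x = x

/-- The algebra generated by the Tate classes of codimension `1` and the Tate classes fixed by
the norm one torus of `E / M`. -/
noncomputable def normAlg {E : Type} [Field E] [NumberField E] {Γ : Type} [Group Γ]
    [TopologicalSpace Γ] {F : Type} [Field F] (M : IntermediateField ℚ E) (n : ℕ)
    (T : Γ → H1 E n F →ₗ[F] H1 E n F) (χ : Γ →* Fˣ) :
    Subalgebra F (ExteriorAlgebra F (H1 E n F)) :=
  Algebra.adjoin F {x | TateClass T χ 1 x ∨ ((∃ i : ℕ, TateClass T χ i x) ∧ NormFixed M x)}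

/-- The algebraic part.

Proof. By `coe_eq_sum_monomials` (`Monomial.lean`) and `tateClass_iff`, `divisorAlg_eq`
(`TateClass.lean`) it is enough to show that `mono F l` is in the algebra `A` for each list `l` without
repetition, of length `2 i`, all whose weights are `i`. Induction on the length. Let
`m φ = multFun l.toFinset φ` be the multiplicities. (1) If there are `p = (φ, a)`, `q = (conjEmb φ, b)` in
`l`, then `mono F l = ± (ev F p * ev F q) * mono F l'` with `l'` the rest (`mono_mem_of_perm`,
`mono_append` in `Peel.lean`, or `mono_mem`, `pair_mem_divisorAlgebra` in `Exotic.lean`); `ev F p * ev F q`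
is in the algebra generated by the Tate classes of codimension `1` (`pair_mem_divisorAlgebra`), and
`l'` has length `2 (i - 1)` and weights `i - 1` (of `φ` and `conjEmb φ` exactly one has
`galEmb τ · ∈ Φ`). (2) Otherwise `m φ = 0` or `m (conjEmb φ) = 0` for each `φ`. The vector
`v φ = m φ - m (conjEmb φ)` is in `relLattice Φ` (computation in the proof of `exists_relation` in
`IntRelation.lean`), so by hypothesis `v φ = v ψ` if `φ` and `ψ` agree on `M`, and `m φ = max (v φ) 0`, so
`m φ = m ψ`. `mono F l` is a Tate class (`isTateClass_monomial`), and it is fixed by the norm one torus: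
`ExteriorAlgebra.map (diag t) (mono F l) = (∏ φ, t φ ^ m φ) • mono F l` (`map_scale_mono` in
`RelExotic.lean`), and `∏ φ, t φ ^ m φ = 1`: group the factors by the classes of the relation
`φ ~ ψ :⇔ φ, ψ agree on M`, on which `m` is constant and the product of the `t φ` is `1`. -/
def StAlg : Prop := ∀ (E : Type) [Field E] [NumberField E] [IsCMField E] (Φ : Set (Emb E))
  (_ : IsCMType Φ) (M : IntermediateField ℚ E)
  (_ : ∀ v ∈ relLattice Φ, ∀ φ ψ : Emb E, (∀ x ∈ M, φ x = ψ x) → v φ = v ψ)
  (Γ : Type) [Group Γ] [TopologicalSpace Γ] (F : Type) [Field F] (ρ : CMGaloisRep Φ Γ F)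
  (n i : ℕ) (x : ExteriorAlgebra F (H1 E n F)),
  TateClass (ρ.onH1 n) ρ.χ i x → x ∈ normAlg M n (ρ.onH1 n) ρ.χ

end Pool.Agent.Lib.MP_640417_ag.Wc
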